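import Pool.Agent.V7H47.TC.Data

/-!
# A convex translation cover for closed curves of length 1 with area below 0.1625
-/

set_option autoImplicit false

open Set MeasureTheory

namespace Pool.Agent.Results.MP_02fa30_co.ConvexCoverH47

open Pool.Agent.V7H47.TC

/-- The least area of a convex translation cover: the infimum of the areas of the compact convex
sets which contain a translate of every closed curve of length `1`. -/
noncomputable def mu : ℝ :=
  sInf {A : ℝ | ∃ K : Set Plane, IsCompact K ∧ Convex ℝ K ∧ IsTranslationCover K ∧
    A = (volume K).toReal}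

/-- There is a compact convex polygon with (at most) 33 edges and area less than `0.1625` which
contains a translate of every closed curve of length `1`; so `mu < 0.1625`. -/
theorem result :
    mu < 0.1625 ∧
    ∃ X Y H : Fin 33 → ℤ, ∃ K : Set Plane,
      K = {p : Plane | ∀ i, (X i : ℝ) * p 0 + (Y i : ℝ) * p 1 ≤ (H i : ℝ) / 10 ^ 6} ∧
      IsCompact K ∧ Convex ℝ K ∧ IsTranslationCover K ∧ volume K < ENNReal.ofReal 0.1625 := by
  have hQ : (0 : ℤ) < 1000000 := by norm_num
  have hcov : IsTranslationCover (poly rX rY rH 1000000) := cover hQ (by norm_num) rows_triple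
  have hcomp : IsCompact (poly rX rY rH 1000000) :=
    poly_compact hQ rows_edge rows_one rows_two rows_thr
  have hconv : Convex ℝ (poly rX rY rH 1000000) := poly_convex _ _ _ _
  have harea : volume (poly rX rY rH 1000000) < ENNReal.ofReal 0.1625 := by
    refine (area_le hQ rows_edge rows_one rows_two rows_thr).trans_lt ?_
    rw [rows_area, ENNReal.ofReal_lt_ofReal_iff (by norm_num)]
    norm_num
  refine ⟨?_, rX, rY, rH, poly rX rY rH 1000000, ?_, hcomp, hconv, hcov, harea⟩
  · have hlt : (volume (poly rX rY rH 1000000)).toReal < 0.1625 := by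
      have h := (ENNReal.toReal_lt_toReal harea.ne_top ENNReal.ofReal_ne_top).2 harea
      rwa [ENNReal.toReal_ofReal (by norm_num)] at h
    refine lt_of_le_of_lt (csInf_le ⟨0, ?_⟩ ⟨_, hcomp, hconv, hcov, rfl⟩) hlt
    rintro A ⟨K, -, -, -, rfl⟩
    exact ENNReal.toReal_nonneg
  · ext p
    simp only [poly, dot, mem_ofPred_eq]
    norm_num

end Pool.Agent.Results.MP_02fa30_co.ConvexCoverH47
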