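import Pool.Agent.V7H47.LB.FIN
import Pool.Agent.V7H74.LB.TRI
import Pool.Agent.V7H66.LB.CR
import Pool.Agent.V7H17.LB.ACU
import Pool.Agent.V7H19.LB.GEO
import Pool.Agent.V7H34.LB.MIX
import Pool.Agent.V7H96.LB.W3
import Pool.Agent.V7H63.LB.NH
import Pool.Agent.V7H51.LB.INC
import Pool.Agent.V7H47.LB.NINE
import Pool.Agent.V7H70.LB.W2
import Pool.Agent.V7H19.LB.NL
import Pool.Agent.V7H96.LB.NR

/-!
# Every compact convex translation cover for closed curves of length 1 has area at least 0.1566
-/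

set_option autoImplicit false

open Set MeasureTheory

namespace Pool.Agent.Results.MP_02fa30_co.LowerBoundH47

open Pool.Agent.V7H47.TC (Plane IsClosedWorm IsTranslationCover)
open Pool.Agent.V7H47.LB

/-- The least area of a convex translation cover: the infimum of the areas of the compact convex
sets which contain a translate of every closed curve of length `1`. -/
noncomputable def mu : ℝ :=
  sInf {A : ℝ | ∃ K : Set Plane, IsCompact K ∧ Convex ℝ K ∧ IsTranslationCover K ∧
    A = (volume K).toReal}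

/-- the closed disc of radius 1 is a translation cover -/
lemma disc_cover : IsTranslationCover (Metric.closedBall (0 : Plane) 1) := by
  intro γ hγ
  refine ⟨-γ 0, fun t ht => ?_⟩
  have h1 : edist (γ t) (γ 0) ≤ 1 := by
    have h := eVariationOn.edist_le γ ht (show (0 : ℝ) ∈ Icc (0 : ℝ) 1 by simp)
    rwa [hγ.2.2] at h
  rw [Metric.mem_closedBall, dist_zero_right, ← sub_eq_add_neg, ← dist_eq_norm]
  rw [edist_dist] at h1
  have h2 := ENNReal.toReal_mono ENNReal.one_ne_top h1
  simpa [ENNReal.toReal_ofReal dist_nonneg] using h2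

/-- Every compact convex set which contains a translate of every closed curve of length `1` has
area at least `0.1566`; so `0.1566 ≤ mu`. -/
theorem result :
    (∀ K : Set Plane, IsCompact K → Convex ℝ K → IsTranslationCover K →
      ENNReal.ofReal 0.1566 ≤ volume K) ∧ 0.1566 ≤ mu := by
  have hTRI : S_TRI := Pool.Agent.V7H74.LB.t_TRI
  have hFIN : S_FIN := t_FIN (Pool.Agent.V7H66.LB.t_WID hTRI) Pool.Agent.V7H51.LB.t_INC
    Pool.Agent.V7H19.LB.t_GEO (t_NINE Pool.Agent.V7H34.LB.t_MIX)
    (Pool.Agent.V7H70.LB.t_W2 (Pool.Agent.V7H17.LB.t_ACU hTRI)) Pool.Agent.V7H96.LB.t_W3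
    Pool.Agent.V7H19.LB.t_NL Pool.Agent.V7H96.LB.t_NR Pool.Agent.V7H63.LB.t_NH
    Pool.Agent.V7H66.LB.t_CR
  refine ⟨hFIN, ?_⟩
  refine le_csInf ⟨_, Metric.closedBall (0 : Plane) 1, isCompact_closedBall _ _,
    convex_closedBall _ _, disc_cover, rfl⟩ ?_
  rintro A ⟨K, hK, hc, hcov, rfl⟩
  have h := ENNReal.toReal_mono hK.measure_lt_top.ne (hFIN K hK hc hcov)
  rwa [ENNReal.toReal_ofReal (by norm_num)] at h

end Pool.Agent.Results.MP_02fa30_co.LowerBoundH47
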